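import Pool.Agent.Helper1.RK.StA

/-!
# Project RK (MP_de00bc_nt): module CMP, orders of composed functions
-/

set_option autoImplicit false

namespace Pool.Agent.Helper99.RK

open Polynomial Pool.Agent.Helper1.RK

section

variable {L : Type} [Field L]

theorem phi_C (φ : RatFunc L →ₐ[L] RatFunc L) (a : L) : φ (RatFunc.C a) = RatFunc.C a := by
  have := φ.commutes a
  rwa [RatFunc.algebraMap_eq_C] at this

/-- a polynomial composed with a function which is regular at `p` -/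
theorem phi_poly (h2 : StREG) (p τ : L) (φ : RatFunc L →ₐ[L] RatFunc L) (hr : Reg p (φ RatFunc.X))
    (he : ev p (φ RatFunc.X) = τ) (P : L[X]) :
    Reg p (φ (algebraMap L[X] (RatFunc L) P)) ∧ ev p (φ (algebraMap L[X] (RatFunc L) P)) = P.eval τ := by
  obtain ⟨_, _, _, _, hC, _, hop, _, _⟩ := h2 L p
  induction P using Polynomial.induction_on with
  | C a =>
    rw [RatFunc.algebraMap_C, phi_C, eval_C]
    exact hC a
  | add P Q hP hQ =>
    rw [map_add, map_add, eval_add]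
    obtain ⟨a1, a2, _⟩ := hop _ _ hP.1 hQ.1
    exact ⟨a1, by rw [a2, hP.2, hQ.2]⟩
  | monomial n a hP =>
    have h3 : (C a * X ^ (n + 1) : L[X]) = (C a * X ^ n) * X := by ring
    rw [h3, map_mul, map_mul, eval_mul, eval_X, RatFunc.algebraMap_X]
    obtain ⟨_, _, a3, a4, _⟩ := hop _ _ hP.1 hr
    exact ⟨a3, by rw [a4, hP.2, he]⟩

end

theorem pCMP (h1 : StORD) (h2 : StREG) : StCMP := by
  intro L _ p τ φ hr he
  obtain ⟨o1, omul, oinv, oneg, opow, _, _, oC, oX, _⟩ := h1 L p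
  obtain ⟨_, _, _, _, _, _, _, _, oXτ, _⟩ := h1 L τ
  obtain ⟨r1, r2, r3, r4, rC, rX, rop, rneg, rinv⟩ := h2 L p
  have hinj : Function.Injective φ := φ.toRingHom.injective
  have hpoly := phi_poly h2 p τ φ hr he
  have hs0 : φ RatFunc.X - RatFunc.C τ ≠ 0 := by
    intro h0
    have h3 : (RatFunc.X : RatFunc L) = RatFunc.C τ := by
      apply hinj
      rw [phi_C]
      exact sub_eq_zero.1 h0
    rw [h3, sub_self, ← map_zero (RatFunc.C : L →+* RatFunc L)] at oXτ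
    have h4 := (h1 L τ).2.2.2.2.2.2.2.1 0
    rw [h4] at oXτ
    exact zero_ne_one oXτ
  obtain ⟨s1, s2⟩ := (rop _ _ hr (rC τ).1).2.2.2.2
  have hord1 : 1 ≤ ord p (φ RatFunc.X - RatFunc.C τ) := by
    have h3 : ev p (φ RatFunc.X - RatFunc.C τ) = 0 := by rw [s2, he, (rC τ).2, sub_self]
    exact ((r4 _ s1).1 h3).resolve_left hs0
  have hunit : ∀ A : L[X], A.eval τ ≠ 0 → φ (algebraMap L[X] (RatFunc L) A) ≠ 0 ∧
      ord p (φ (algebraMap L[X] (RatFunc L) A)) = 0 := by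
    intro A hA
    obtain ⟨a1, a2⟩ := hpoly A
    have h3 : ¬ (φ (algebraMap L[X] (RatFunc L) A) = 0 ∨ 1 ≤ ord p (φ (algebraMap L[X] (RatFunc L) A))) := by
      intro h4
      apply hA
      rw [← a2]
      exact (r4 _ a1).2 h4
    push Not at h3
    have h4 := ((r2 _).1 a1).resolve_left h3.1
    exact ⟨h3.1, by omega⟩
  have hpol : ∀ A : L[X], A ≠ 0 → φ (algebraMap L[X] (RatFunc L) A) ≠ 0 ∧
      ord p (φ (algebraMap L[X] (RatFunc L) A)) =
        ord p (φ RatFunc.X - RatFunc.C τ) * (A.rootMultiplicity τ : ℤ) := by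
    intro A hA
    obtain ⟨q, hq1, hq2⟩ := Polynomial.exists_eq_pow_rootMultiplicity_mul_and_not_dvd A hA τ
    have hqτ : q.eval τ ≠ 0 := fun h3 => hq2 (Polynomial.dvd_iff_isRoot.2 h3)
    obtain ⟨b1, b2⟩ := hunit q hqτ
    have h3 : φ (algebraMap L[X] (RatFunc L) A) =
        (φ RatFunc.X - RatFunc.C τ) ^ (A.rootMultiplicity τ) * φ (algebraMap L[X] (RatFunc L) q) := by
      conv_lhs => rw [hq1]
      rw [map_mul, map_mul, map_pow, map_pow, map_sub, map_sub, RatFunc.algebraMap_X, RatFunc.algebraMap_C,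
        phi_C]
    refine ⟨?_, ?_⟩
    · rw [h3]
      exact mul_ne_zero (pow_ne_zero _ hs0) b1
    · rw [h3, omul _ _ (pow_ne_zero _ hs0) b1, opow, b2, add_zero, mul_comm]
  have hg : ∀ g : RatFunc L, φ g = φ (algebraMap L[X] (RatFunc L) g.num) *
      (φ (algebraMap L[X] (RatFunc L) g.denom))⁻¹ := by
    intro g
    conv_lhs => rw [← RatFunc.num_div_denom g]
    rw [map_div₀, div_eq_mul_inv]
  have hord2 : ∀ g : RatFunc L, g ≠ 0 → ord p (φ g) = ord p (φ RatFunc.X - RatFunc.C τ) * ord τ g := by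
    intro g hg0
    obtain ⟨a1, a2⟩ := hpol g.num (RatFunc.num_ne_zero hg0)
    obtain ⟨b1, b2⟩ := hpol g.denom g.denom_ne_zero
    rw [hg g, omul _ _ a1 (inv_ne_zero b1), oinv, a2, b2]
    unfold ord
    ring
  refine ⟨hord1, hord2, ?_, ?_⟩
  · intro g hgr
    obtain ⟨a1, a2⟩ := hpoly g.num
    obtain ⟨b1, b2⟩ := hpoly g.denom
    have hd : g.denom.eval τ ≠ 0 := hgr
    obtain ⟨c1, c2⟩ := rinv _ b1 (by rw [b2]; exact hd)
    obtain ⟨_, _, d3, d4, _⟩ := rop _ _ a1 c1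
    rw [hg g]
    refine ⟨d3, ?_⟩
    rw [d4, c2, a2, b2]
    unfold ev
    rw [div_eq_mul_inv]
  · intro g hgr
    obtain ⟨a1, a2⟩ := ((h2 L τ).2.2.1 g).1 hgr
    rw [r3]
    refine ⟨fun h0 => a1 (hinj (by rw [h0, map_zero])), ?_⟩
    rw [hord2 g a1]
    exact mul_neg_of_pos_of_neg (by omega) a2

end Pool.Agent.Helper99.RK
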