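import Pool.Agent.Helper1.RK.StD

/-!
# Project RK (MP_de00bc_nt), module CNW: a Weierstrass curve is not rational
-/

set_option autoImplicit false

namespace Pool.Agent.Helper99.RK

open Pool.Agent.Helper1.RK

theorem pCNW (h1 : StCON) (h2 : StLEG) : StCNW := by
  intro L _ _ _ a b u hb hd hsq hne
  obtain ⟨e0, e1, e2, h01, h02, h12, -, hL, -, -⟩ := h2 L a b hb hd
  have ht : e1 - e0 ≠ 0 := sub_ne_zero.2 h01.symm
  obtain ⟨s, hs⟩ : ∃ s : L, (e1 - e0) ^ 3 = s * s := by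
    obtain ⟨s, hs⟩ := IsAlgClosed.exists_pow_nat_eq ((e1 - e0) ^ 3) (n := 2) (by norm_num)
    exact ⟨s, by rw [← hs, pow_two]⟩
  have hs0 : s ≠ 0 := by
    rintro rfl
    rw [mul_zero] at hs
    exact ht (pow_eq_zero_iff (by norm_num) |>.1 hs)
  have hCs : (RatFunc.C s : RatFunc L) ≠ 0 := by
    rwa [Ne, map_eq_zero]
  have hCt : (RatFunc.C (e1 - e0) : RatFunc L) ≠ 0 := by
    rwa [Ne, map_eq_zero]
  obtain ⟨z, hz⟩ : ∃ z : RatFunc L, z = (u - RatFunc.C e0) / RatFunc.C (e1 - e0) := ⟨_, rfl⟩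
  obtain ⟨l, hl⟩ : ∃ l : L, l = (e2 - e0) / (e1 - e0) := ⟨_, rfl⟩
  have hw := hL u
  rw [← hz, ← hl, hs, map_mul] at hw
  have hl0 : l ≠ 0 := by
    rw [hl]
    exact div_ne_zero (sub_ne_zero.2 h02.symm) ht
  have hl1 : l ≠ 1 := by
    intro h
    rw [h] at hl
    have h3 := (div_eq_one_iff_eq ht).1 hl.symm
    exact h12 (sub_left_injective h3.symm)
  have hleg0 : leg l z ≠ 0 := by
    intro h0
    rw [h0, mul_zero] at hw
    exact hne hw
  have hlsq : IsSquare (leg l z) := by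
    obtain ⟨w, hw2⟩ := hsq
    refine ⟨w / RatFunc.C s, ?_⟩
    have h3 : leg l z = wei a b u / (RatFunc.C s * RatFunc.C s) := by
      rw [hw]
      field_simp
    rw [h3, hw2, div_mul_div_comm]
  obtain ⟨c, hc⟩ := h1 L l z hl0 hl1 hlsq hleg0
  refine ⟨c * (e1 - e0) + e0, ?_⟩
  rw [map_add, map_mul, ← hc, hz, div_mul_cancel₀ _ hCt, sub_add_cancel]

end Pool.Agent.Helper99.RK
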